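import Mathlib

/-!
Part A of the construction of a metrically universal separable group with left-invariant metric.
A chain lemma for building matrices indexed by natural numbers, and the construction of a
countable (pseudo-)metric space in which every Katetov function over an initial segment is
approximately realised by a point which is placed freely over that initial segment.
-/

namespace Pool.Agent.H686R4

open Set

/-- Building a matrix by successive extension. -/
theorem chain {α : Type*} (P : ℕ → (ℕ → ℕ → α) → Prop) (R : ℕ → (ℕ → ℕ → α) → Prop)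
    (loc : ∀ n D D', (∀ i < n, ∀ j < n, D i j = D' i j) → P n D → P n D')
    (mono : ∀ m n D, m ≤ n → P n D → P m D) (D0 : ℕ → ℕ → α) (base : P 1 D0)
    (step : ∀ k n D, k < n → P n D → ∃ n' D', n < n' ∧ P n' D' ∧
      (∀ i < n, ∀ j < n, D' i j = D i j) ∧
      (∀ D'', (∀ i < n', ∀ j < n', D'' i j = D' i j) → R k D'')) :
    ∃ D, (∀ n, P n D) ∧ ∀ k, R k D := by
  classical
  -- states
  let St : ℕ → Type _ := fun k => {s : ℕ × (ℕ → ℕ → α) // k < s.1 ∧ P s.1 s.2}
  have step' : ∀ k (s : St k), ∃ t : St (k+1), s.1.1 < t.1.1 ∧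
      (∀ i < s.1.1, ∀ j < s.1.1, t.1.2 i j = s.1.2 i j) ∧
      (∀ D'', (∀ i < t.1.1, ∀ j < t.1.1, D'' i j = t.1.2 i j) → R k D'') := by
    rintro k ⟨⟨n, D⟩, hk, hP⟩
    obtain ⟨n', D', h1, h2, h3, h4⟩ := step k n D hk hP
    exact ⟨⟨⟨n', D'⟩, by simp only; omega, h2⟩, h1, h3, h4⟩
  choose nxt hn1 hn2 hn3 using step'
  let S : (k : ℕ) → St k := fun k => Nat.rec ⟨⟨1, D0⟩, Nat.one_pos, base⟩ (fun k s => nxt k s) k
  have hS : ∀ k, S (k+1) = nxt k (S k) := fun k => rfl
  have hgrow : ∀ k, k < (S k).1.1 := fun k => (S k).2.1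
  have hmono : ∀ k l, k ≤ l → (S k).1.1 ≤ (S l).1.1 := by
    intro k l h
    induction h with
    | refl => exact le_rfl
    | step h ih => rw [hS]; exact ih.trans (hn1 _ _).le
  have hagree : ∀ k l, k ≤ l → ∀ i < (S k).1.1, ∀ j < (S k).1.1,
      (S l).1.2 i j = (S k).1.2 i j := by
    intro k l h
    induction h with
    | refl => intros; rfl
    | @step m h ih =>
      intro i hi j hj
      rw [hS]
      have h1 := hn2 m (S m) i (lt_of_lt_of_le hi (hmono k m h)) j
        (lt_of_lt_of_le hj (hmono k m h))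
      rw [h1]
      exact ih i hi j hj
  let D : ℕ → ℕ → α := fun i j => (S (max i j)).1.2 i j
  have hD : ∀ k, ∀ i < (S k).1.1, ∀ j < (S k).1.1, D i j = (S k).1.2 i j := by
    intro k i hi j hj
    show (S (max i j)).1.2 i j = _
    rcases le_total k (max i j) with h | h
    · exact hagree _ _ h i hi j hj
    · exact (hagree _ _ h i (lt_of_le_of_lt (le_max_left _ _) (hgrow _)) j
        (lt_of_le_of_lt (le_max_right _ _) (hgrow _))).symm
  refine ⟨D, fun n => ?_, fun k => ?_⟩
  · refine mono n (S n).1.1 D (hgrow n).le ?_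
    refine loc _ (S n).1.2 D ?_ (S n).2.2
    intro i hi j hj
    exact (hD n i hi j hj).symm
  · refine hn3 k (S k) D ?_
    intro i hi j hj
    have := hD (k+1) i (by rw [hS]; exact hi) j (by rw [hS]; exact hj)
    rw [this, hS]

/-- `D` restricted to `{0, ..., n-1}` is a pseudo-metric. -/
structure PM (n : ℕ) (D : ℕ → ℕ → ℝ) : Prop where
  self : ∀ i < n, D i i = 0
  symm : ∀ i < n, ∀ j < n, D i j = D j i
  tri : ∀ i < n, ∀ j < n, ∀ k < n, D i k ≤ D i j + D j k

/-- `f` restricted to `{0, ..., n-1}` is a Katetov function for `D`. -/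
structure Kat (n : ℕ) (D : ℕ → ℕ → ℝ) (f : ℕ → ℝ) : Prop where
  lip : ∀ i < n, ∀ j < n, f i ≤ f j + D j i
  sum : ∀ i < n, ∀ j < n, D i j ≤ f i + f j

/-- Free extension of a Katetov function. -/
theorem exists_free {n n0 : ℕ} {D : ℕ → ℕ → ℝ} (hD : PM n D) (h0 : 1 ≤ n0) (hn : n0 ≤ n)
    {f : ℕ → ℝ} (hf : Kat n0 D f) :
    ∃ f' : ℕ → ℝ, Kat n D f' ∧ (∀ i < n0, f' i = f i) ∧
      (∀ i, n0 ≤ i → i < n → ∃ j < n0, f' i = f' j + D j i) := by
  classical
  have hne : (Finset.range n0).Nonempty := ⟨0, by simp; omega⟩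
  let F : ℕ → ℝ := fun i => (Finset.range n0).inf' hne (fun j => f j + D j i)
  have hF1 : ∀ i, ∀ j < n0, F i ≤ f j + D j i := by
    intro i j hj
    exact Finset.inf'_le (fun j => f j + D j i) (Finset.mem_range.2 hj)
  have hF2 : ∀ i, ∃ j < n0, F i = f j + D j i := by
    intro i
    obtain ⟨j, hj, hj'⟩ := Finset.exists_mem_eq_inf' hne (fun j => f j + D j i)
    exact ⟨j, Finset.mem_range.1 hj, hj'⟩
  have hF3 : ∀ i < n0, F i = f i := by
    intro i hi
    apply le_antisymm
    · have := hF1 i i hi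
      rw [hD.self i (by omega)] at this
      linarith
    · obtain ⟨j, hj, hj'⟩ := hF2 i
      rw [hj']
      exact hf.lip i hi j hj
  refine ⟨F, ⟨?_, ?_⟩, hF3, ?_⟩
  · intro i hi j hj
    obtain ⟨l, hl, hl'⟩ := hF2 j
    have h1 := hF1 i l hl
    have h2 := hD.tri l (by omega) j hj i hi
    linarith
  · intro i hi j hj
    obtain ⟨l, hl, hl'⟩ := hF2 i
    obtain ⟨m, hm, hm'⟩ := hF2 j
    have h1 := hf.sum l hl m hm
    have h2 := hD.tri i hi l (by omega) j hj
    have h3 := hD.tri l (by omega) m (by omega) j hj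
    have h4 := hD.symm i hi l (by omega)
    linarith
  · intro i hi1 hi2
    obtain ⟨j, hj, hj'⟩ := hF2 i
    exact ⟨j, hj, by rw [hF3 j hj]; exact hj'⟩

/-- adding a point. -/
theorem exists_ext {n : ℕ} {D : ℕ → ℕ → ℝ} (hD : PM n D) {f : ℕ → ℝ} (hf : Kat n D f) :
    ∃ D' : ℕ → ℕ → ℝ, PM (n+1) D' ∧ (∀ i < n, ∀ j < n, D' i j = D i j) ∧
      (∀ i < n, D' n i = f i) := by
  classical
  refine ⟨fun i j => if i < n then (if j < n then D i j else f i) else (if j < n then f j else 0),
    ⟨?_, ?_, ?_⟩, ?_, ?_⟩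
  · intro i hi
    by_cases h : i < n
    · simp [h, hD.self i h]
    · simp [h]
  · intro i hi j hj
    by_cases h : i < n <;> by_cases h' : j < n <;> simp [h, h']
    exact hD.symm i h j h'
  · intro i hi j hj k hk
    have hnn : ∀ i < n, 0 ≤ f i := by
      intro i hi
      have := hf.sum i hi i hi
      rw [hD.self i hi] at this
      linarith
    by_cases h : i < n <;> by_cases h' : j < n <;> by_cases h'' : k < n <;> simp [h, h', h'']
    · exact hD.tri i h j h' k h''
    · have := hf.lip i h j h'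
      rw [hD.symm j h' i h] at this
      linarith
    · exact hf.sum i h k h''
    · exact hf.lip k h'' j h'
    · exact hnn j h'
  · intro i hi j hj
    simp [hi, hj]
  · intro i hi
    simp [hi]

theorem PM.loc {n : ℕ} {D D' : ℕ → ℕ → ℝ} (h : ∀ i < n, ∀ j < n, D i j = D' i j)
    (hD : PM n D) : PM n D' where
  self i hi := by rw [← h i hi i hi]; exact hD.self i hi
  symm i hi j hj := by rw [← h i hi j hj, ← h j hj i hi]; exact hD.symm i hi j hj
  tri i hi j hj k hk := by
    rw [← h i hi j hj, ← h j hj k hk, ← h i hi k hk]; exact hD.tri i hi j hj k hk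

theorem PM.mono {m n : ℕ} {D : ℕ → ℕ → ℝ} (h : m ≤ n) (hD : PM n D) : PM m D where
  self i hi := hD.self i (by omega)
  symm i hi j hj := hD.symm i (by omega) j (by omega)
  tri i hi j hj k hk := hD.tri i (by omega) j (by omega) k (by omega)

theorem Kat.loc {n : ℕ} {D D' : ℕ → ℕ → ℝ} {f : ℕ → ℝ} (h : ∀ i < n, ∀ j < n, D i j = D' i j)
    (hD : Kat n D f) : Kat n D' f where
  lip i hi j hj := by rw [← h j hj i hi]; exact hD.lip i hi j hj
  sum i hi j hj := by rw [← h i hi j hj]; exact hD.sum i hi j hj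

/-- The universality property of the countable metric space `D`. -/
def Rich (D : ℕ → ℕ → ℝ) : Prop :=
  ∀ (n0 : ℕ) (f : ℕ → ℝ) (c : ℝ) (M : ℕ), 1 ≤ n0 → Kat n0 D f → 0 < c →
    ∃ n, n0 ≤ n ∧ M ≤ n ∧ (∀ i < n0, |D n i - f i| ≤ c) ∧
      (∀ i, n0 ≤ i → i < n → ∃ j < n0, D n i = D n j + D j i)

/-- the `k`-th task. -/
def Task (k : ℕ) (D : ℕ → ℕ → ℝ) : Prop :=
  ∀ (q : List ℚ) (m : ℕ), Encodable.decode (Nat.unpair (Nat.unpair k).1).2 = some (q, m) →
    1 ≤ (Nat.unpair (Nat.unpair k).1).1 →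
    (∃ f, Kat (Nat.unpair (Nat.unpair k).1).1 D f ∧
      ∀ i < (Nat.unpair (Nat.unpair k).1).1, |f i - ((q.getD i 0 : ℚ) : ℝ)| ≤ 1 / ((m : ℝ) + 1)) →
    ∃ n, (Nat.unpair (Nat.unpair k).1).1 ≤ n ∧ (Nat.unpair k).2 ≤ n ∧
      (∀ i < (Nat.unpair (Nat.unpair k).1).1,
        |D n i - ((q.getD i 0 : ℚ) : ℝ)| ≤ 1 / ((m : ℝ) + 1)) ∧
      (∀ i, (Nat.unpair (Nat.unpair k).1).1 ≤ i → i < n →
        ∃ j < (Nat.unpair (Nat.unpair k).1).1, D n i = D n j + D j i)

theorem exists_rich : ∃ D : ℕ → ℕ → ℝ, (∀ n, PM n D) ∧ Rich D := by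
  classical
  obtain ⟨D, hD, hT⟩ := chain (P := fun n D => PM n D) (R := Task)
    (fun n D D' h hP => hP.loc h) (fun m n D h hP => hP.mono h) (fun _ _ => 0)
    ⟨fun _ _ => rfl, fun _ _ _ _ => rfl, fun _ _ _ _ _ _ => by simp⟩
    (by
      intro k n D hk hP
      have hn0 : (Nat.unpair (Nat.unpair k).1).1 < n :=
        lt_of_le_of_lt ((Nat.unpair_left_le _).trans (Nat.unpair_left_le _)) hk
      have hM : (Nat.unpair k).2 < n := lt_of_le_of_lt (Nat.unpair_right_le _) hk
      set n0 := (Nat.unpair (Nat.unpair k).1).1 with hn0def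
      by_cases hex : ∃ (q : List ℚ) (m : ℕ), Encodable.decode (Nat.unpair (Nat.unpair k).1).2
          = some (q, m) ∧ 1 ≤ n0 ∧ (∃ f, Kat n0 D f ∧
            ∀ i < n0, |f i - ((q.getD i 0 : ℚ) : ℝ)| ≤ 1 / ((m : ℝ) + 1))
      · obtain ⟨q, m, hqm, h1, f, hf, hfq⟩ := hex
        obtain ⟨f', hf'1, hf'2, hf'3⟩ := exists_free hP h1 hn0.le hf
        obtain ⟨D', hD'1, hD'2, hD'3⟩ := exists_ext hP hf'1
        refine ⟨n+1, D', by omega, hD'1, hD'2, ?_⟩
        intro D'' hag q' m' hqm' _ _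
        rw [hqm] at hqm'
        simp only [Option.some.injEq, Prod.mk.injEq] at hqm'
        obtain ⟨rfl, rfl⟩ := hqm'
        rw [← hn0def]
        refine ⟨n, hn0.le, hM.le, ?_, ?_⟩
        · intro i hi
          rw [hag n (by omega) i (by omega), hD'3 i (by omega), hf'2 i hi]
          exact hfq i hi
        · intro i hi1 hi2
          obtain ⟨j, hj, hj'⟩ := hf'3 i hi1 hi2
          refine ⟨j, hj, ?_⟩
          rw [hag n (by omega) i (by omega), hD'3 i (by omega), hag n (by omega) j (by omega),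
            hD'3 j (by omega), hag j (by omega) i (by omega), hD'2 j (by omega) i hi2]
          exact hj'
      · have hn1 : 0 < n := by omega
        have hK : Kat n D (fun i => D 0 i) := by
          constructor
          · intro i hi j hj
            exact hP.tri 0 hn1 j hj i hi
          · intro i hi j hj
            have := hP.tri i hi 0 hn1 j hj
            rw [hP.symm i hi 0 hn1] at this
            exact this
        obtain ⟨D', hD'1, hD'2, hD'3⟩ := exists_ext hP hK
        refine ⟨n+1, D', by omega, hD'1, hD'2, ?_⟩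
        intro D'' hag q' m' hqm' h1 hf
        exfalso
        apply hex
        obtain ⟨f, hf1, hf2⟩ := hf
        refine ⟨q', m', hqm', h1, f, ?_, hf2⟩
        refine hf1.loc ?_
        intro i hi j hj
        rw [← hn0def] at hi hj
        rw [hag i (by omega) j (by omega), hD'2 i (by omega) j (by omega)])
  refine ⟨D, hD, ?_⟩
  intro n0 f c M h1 hf hc
  obtain ⟨m, hm⟩ := exists_nat_one_div_lt (half_pos hc)
  have hm0 : (0:ℝ) < 1 / ((m:ℝ) + 1) := by positivity
  -- rational approximation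
  have hq : ∀ i : ℕ, ∃ q : ℚ, |f i - (q:ℝ)| ≤ 1 / ((m:ℝ)+1) := by
    intro i
    obtain ⟨q, hq1, hq2⟩ := exists_rat_btwn (show f i - 1 / ((m:ℝ)+1) < f i by linarith)
    refine ⟨q, ?_⟩
    rw [abs_le]
    constructor <;> linarith
  choose q hq using hq
  let ql : List ℚ := (List.range n0).map q
  have hql : ∀ i < n0, ql.getD i 0 = q i := by
    intro i hi
    simp [ql, List.getD, hi]
  let k := Nat.pair (Nat.pair n0 (Encodable.encode (ql, m))) M
  have hk1 : (Nat.unpair (Nat.unpair k).1).1 = n0 := by simp [k]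
  have hk2 : (Nat.unpair (Nat.unpair k).1).2 = Encodable.encode (ql, m) := by simp [k]
  have hk3 : (Nat.unpair k).2 = M := by simp [k]
  have := hT k ql m (by rw [hk2]; exact Encodable.encodek _) (by rw [hk1]; exact h1)
  rw [hk1, hk3] at this
  obtain ⟨n, hn1, hn2, hn3, hn4⟩ := this ⟨f, hf, fun i hi => by rw [hql i hi]; exact hq i⟩
  refine ⟨n, hn1, hn2, ?_, hn4⟩
  intro i hi
  have h3 := hn3 i hi
  rw [hql i hi] at h3
  have h4 := hq i
  have : |D n i - f i| ≤ |D n i - q i| + |f i - q i| := by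
    rw [show D n i - f i = (D n i - q i) - (f i - q i) by ring]
    exact abs_sub _ _
  linarith

end Pool.Agent.H686R4
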