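import Pool.Agent.H686R4.ShkA

/-!
Part B: for a group `H` with a norm `N`, construction of an `H`-invariant pseudo-metric on
`ℕ × H`, given by `d((i,g),(j,h)) = μ i j (g⁻¹ h)`.
-/

namespace Pool.Agent.H686R4

open Set

variable {H : Type*} [Group H]

structure Good (D : ℕ → ℕ → ℝ) (N : H → ℝ) (n : ℕ) (μ : ℕ → ℕ → H → ℝ) : Prop where
  one : ∀ i < n, ∀ j < n, μ i j 1 = D i j
  inv : ∀ i < n, ∀ j < n, ∀ h, μ i j h⁻¹ = μ j i h
  tri : ∀ i < n, ∀ j < n, ∀ k < n, ∀ g h, μ i k (g * h) ≤ μ i j g + μ j k h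
  lip : ∀ i < n, ∀ h, μ i i h ≤ ((i:ℝ) + 1) * N h
  zero : 0 < n → ∀ h, μ 0 0 h = N h

structure Norm (N : H → ℝ) : Prop where
  one : N 1 = 0
  inv : ∀ h, N h⁻¹ = N h
  mul : ∀ g h, N (g * h) ≤ N g + N h

theorem Norm.nonneg {N : H → ℝ} (hN : Norm N) (h : H) : 0 ≤ N h := by
  have := hN.mul h h⁻¹
  rw [mul_inv_cancel, hN.one, hN.inv] at this
  linarith

theorem Good.nonneg {D : ℕ → ℕ → ℝ} {N : H → ℝ} {n : ℕ} {μ : ℕ → ℕ → H → ℝ}
    (hD : ∀ n, PM n D) (hG : Good D N n μ) {i j : ℕ} (hi : i < n) (hj : j < n) (h : H) :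
    0 ≤ μ i j h := by
  have h1 := hG.tri i hi j hj i hi h h⁻¹
  rw [mul_inv_cancel, hG.one i hi i hi, (hD n).self i hi, hG.inv j hj i hi] at h1
  linarith

theorem Good.mono {D : ℕ → ℕ → ℝ} {N : H → ℝ} {m n : ℕ} {μ : ℕ → ℕ → H → ℝ}
    (h : m ≤ n) (hG : Good D N n μ) : Good D N m μ where
  one i hi j hj := hG.one i (by omega) j (by omega)
  inv i hi j hj := hG.inv i (by omega) j (by omega)
  tri i hi j hj k hk := hG.tri i (by omega) j (by omega) k (by omega)
  lip i hi := hG.lip i (by omega)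
  zero hm := hG.zero (by omega)

theorem Good.loc {D : ℕ → ℕ → ℝ} {N : H → ℝ} {n : ℕ} {μ μ' : ℕ → ℕ → H → ℝ}
    (h : ∀ i < n, ∀ j < n, μ i j = μ' i j) (hG : Good D N n μ) : Good D N n μ' where
  one i hi j hj := by rw [← h i hi j hj]; exact hG.one i hi j hj
  inv i hi j hj := by rw [← h i hi j hj, ← h j hj i hi]; exact hG.inv i hi j hj
  tri i hi j hj k hk := by
    rw [← h i hi j hj, ← h j hj k hk, ← h i hi k hk]; exact hG.tri i hi j hj k hk
  lip i hi := by rw [← h i hi i hi]; exact hG.lip i hi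
  zero hm := by rw [← h 0 hm 0 hm]; exact hG.zero hm

/-- Adding an orbit with a prescribed Katetov row. -/
theorem exists_extH {D : ℕ → ℕ → ℝ} {N : H → ℝ} {n : ℕ} {μ : ℕ → ℕ → H → ℝ}
    (hD : ∀ n, PM n D) (hN : Norm N) (hn : 1 ≤ n) (hG : Good D N n μ) (f : ℕ → H → ℝ)
    (K1 : ∀ i < n, ∀ j < n, ∀ h k, f j (h * k) ≤ f i h + μ i j k)
    (K2 : ∀ i < n, ∀ j < n, ∀ h k, μ i j (h⁻¹ * k) ≤ f i h + f j k)
    (K3 : ∀ i < n, f i 1 = D n i)
    (K4 : ∀ i < n, ∀ g h, f i (g * h) ≤ f i h + ((n:ℝ) + 1) * N g) :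
    ∃ μ' : ℕ → ℕ → H → ℝ, Good D N (n+1) μ' ∧ (∀ i < n, ∀ j < n, μ' i j = μ i j) ∧
      (∀ j < n, μ' n j = f j) := by
  classical
  have : Nonempty (Fin n) := ⟨⟨0, hn⟩⟩
  let δ : H → ℝ := fun g => ⨆ p : Fin n × H, |f p.1 (g⁻¹ * p.2) - f p.1 p.2|
  have hbd : ∀ g (p : Fin n × H), |f p.1 (g⁻¹ * p.2) - f p.1 p.2| ≤ ((n:ℝ)+1) * N g := by
    intro g p
    have h1 := K4 p.1 p.1.2 g⁻¹ p.2
    have h2 := K4 p.1 p.1.2 g (g⁻¹ * p.2)
    rw [mul_inv_cancel_left] at h2
    rw [hN.inv] at h1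
    rw [abs_le]
    constructor <;> linarith
  have hbdd : ∀ g, BddAbove (Set.range (fun p : Fin n × H =>
      |f p.1 (g⁻¹ * p.2) - f p.1 p.2|)) := by
    intro g
    refine ⟨((n:ℝ)+1) * N g, ?_⟩
    rintro _ ⟨p, rfl⟩
    exact hbd g p
  have hle : ∀ g i, i < n → ∀ h, |f i (g⁻¹ * h) - f i h| ≤ δ g := by
    intro g i hi h
    exact le_ciSup (hbdd g) ((⟨i, hi⟩ : Fin n), h)
  have hge : ∀ g (b : ℝ), (∀ i < n, ∀ h, |f i (g⁻¹ * h) - f i h| ≤ b) → δ g ≤ b := by
    intro g b hb
    exact ciSup_le (fun p => hb p.1 p.1.2 p.2)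
  have hδ1 : δ 1 = 0 := by
    apply le_antisymm
    · apply hge
      intro i hi h
      simp
    · have := hle 1 0 (by omega) 1
      exact (abs_nonneg _).trans this
  have hδi' : ∀ g, δ g⁻¹ ≤ δ g := by
    intro g
    apply hge
    intro i hi h
    have := hle g i hi (g * h)
    rw [inv_mul_cancel_left] at this
    rw [inv_inv, abs_sub_comm]
    exact this
  have hδi : ∀ g, δ g⁻¹ = δ g := by
    intro g
    apply le_antisymm (hδi' g)
    have := hδi' g⁻¹
    rwa [inv_inv] at this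
  have hδm : ∀ g k, δ (g * k) ≤ δ g + δ k := by
    intro g k
    apply hge
    intro i hi h
    have h1 := hle k i hi (g⁻¹ * h)
    have h2 := hle g i hi h
    rw [mul_inv_rev, mul_assoc]
    have : f i (k⁻¹ * (g⁻¹ * h)) - f i h =
      (f i (k⁻¹ * (g⁻¹ * h)) - f i (g⁻¹ * h)) + (f i (g⁻¹ * h) - f i h) := by ring
    rw [this]
    exact (abs_add_le _ _).trans (by linarith)
  have T3 : ∀ g, ∀ j < n, ∀ h, f j (g * h) ≤ δ g + f j h := by
    intro g j hj h
    have h1 := hle g⁻¹ j hj h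
    rw [inv_inv, hδi] at h1
    have := (abs_le.1 h1).2
    linarith
  have T4 : ∀ g, ∀ j < n, ∀ h, δ g ≤ f j h + f j (g⁻¹ * h) := by
    intro g j hj h
    apply hge
    intro i hi h'
    rw [abs_le]
    constructor
    · -- f i h' ≤ f j h + μ j i (h⁻¹ h')
      have h1 := K1 j hj i hi h (h⁻¹ * h')
      rw [mul_inv_cancel_left] at h1
      have h2 := K2 j hj i hi (g⁻¹ * h) (g⁻¹ * h')
      have h3 : (g⁻¹ * h)⁻¹ * (g⁻¹ * h') = h⁻¹ * h' := by group
      rw [h3] at h2
      linarith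
    · have h1 := K1 j hj i hi (g⁻¹ * h) (h⁻¹ * h')
      have h3 : g⁻¹ * h * (h⁻¹ * h') = g⁻¹ * h' := by group
      rw [h3] at h1
      have h2 := K2 j hj i hi h h'
      linarith
  refine ⟨fun i j h => if i < n then (if j < n then μ i j h else f i h⁻¹)
      else (if j < n then f j h else δ h), ⟨?_, ?_, ?_, ?_, ?_⟩, ?_, ?_⟩
  · intro i hi j hj
    by_cases h : i < n <;> by_cases h' : j < n <;> simp only [h, h', if_true, if_false]
    · exact hG.one i h j h'
    · rw [inv_one, K3 i h]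
      have : j = n := by omega
      rw [this]
      exact (hD (n+1)).symm n (by omega) i (by omega)
    · have : i = n := by omega
      rw [this]
      exact K3 j h'
    · have e1 : i = n := by omega
      have e2 : j = n := by omega
      rw [hδ1, e1, e2, (hD (n+1)).self n (by omega)]
  · intro i hi j hj g
    by_cases h : i < n <;> by_cases h' : j < n <;> simp only [h, h', if_true, if_false]
    · exact hG.inv i h j h' g
    · rw [inv_inv]
    · exact hδi g
  · intro i hi j hj k hk g h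
    by_cases hi' : i < n <;> by_cases hj' : j < n <;> by_cases hk' : k < n <;>
      simp only [hi', hj', hk', if_true, if_false]
    · exact hG.tri i hi' j hj' k hk' g h
    · -- (<,<,n)
      have h1 := K1 j hj' i hi' h⁻¹ g⁻¹
      rw [hG.inv j hj' i hi'] at h1
      rw [mul_inv_rev]
      linarith
    · have h1 := K2 i hi' k hk' g⁻¹ h
      rw [inv_inv] at h1
      exact h1
    · have h1 := T3 h⁻¹ i hi' g⁻¹
      rw [hδi] at h1
      rw [mul_inv_rev]
      linarith
    · exact K1 j hj' k hk' g h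
    · have h1 := T4 (g * h) j hj' g
      have h2 : (g * h)⁻¹ * g = h⁻¹ := by group
      rw [h2] at h1
      exact h1
    · exact T3 g k hk' h
    · exact hδm g h
  · intro i hi h
    by_cases hi' : i < n <;> simp only [hi', if_true, if_false]
    · exact hG.lip i hi' h
    · have e1 : i = n := by omega
      rw [e1]
      exact hge h _ (fun i hi k => hbd h ((⟨i, hi⟩ : Fin n), k))
  · intro _ h
    have : 0 < n := by omega
    simp only [this, if_true]
    exact hG.zero this h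
  · intro i hi j hj
    funext h
    simp only [hi, hj, if_true]
  · intro j hj
    funext h
    simp only [hj, if_true, lt_irrefl, if_false]

/-- One step of the construction: new point `x_n` with the distances `D n i` to the `x_i`,
and at distance at most `c` from the point `k₀ x_{i₀}`. -/
theorem exists_step {D : ℕ → ℕ → ℝ} {N : H → ℝ} {n : ℕ} {μ : ℕ → ℕ → H → ℝ}
    (hD : ∀ n, PM n D) (hN : Norm N) (hn : 1 ≤ n) (hG : Good D N n μ)
    {i0 : ℕ} (hi0 : i0 < n) (k0 : H) {c : ℝ} (hc : 0 ≤ c)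
    (A1 : ∀ i < n, |μ i i0 k0 - D n i| ≤ c)
    (A2 : ∀ g, μ i0 i0 (k0⁻¹ * g * k0) ≤ 2 * c + ((n:ℝ) + 1) * N g) :
    ∃ μ' : ℕ → ℕ → H → ℝ, Good D N (n+1) μ' ∧ (∀ i < n, ∀ j < n, μ' i j = μ i j) ∧
      μ' n i0 k0 ≤ c ∧
      (∀ j < n, ∀ h, ∀ b : ℝ, (∀ i < n, b ≤ D n i + μ i j h) →
        (∀ g, b ≤ c + ((n:ℝ) + 1) * N g + μ i0 j ((g * k0)⁻¹ * h)) → b ≤ μ' n j h) := by
  classical
  have : Nonempty (Fin n) := ⟨⟨0, hn⟩⟩
  set L : ℝ := (n:ℝ) + 1 with hL
  have hLpos : 0 ≤ L := by positivity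
  have hlipL : ∀ i < n, ∀ h, μ i i h ≤ L * N h := by
    intro i hi h
    refine (hG.lip i hi h).trans ?_
    have : (i:ℝ) ≤ n := by exact_mod_cast hi.le
    have h2 := hN.nonneg h
    nlinarith
  have hDn : ∀ i < n, 0 ≤ D n i := by
    intro i hi
    have h1 := (hD (n+1)).tri i (by omega) n (by omega) i (by omega)
    rw [(hD (n+1)).self i (by omega), (hD (n+1)).symm i (by omega) n (by omega)] at h1
    linarith
  -- anchors
  let idx : Option (Fin n) → ℕ := fun a => a.elim i0 (fun i => i)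
  let el : Option (Fin n) → H := fun a => a.elim k0 (fun _ => 1)
  let rad : Option (Fin n) → ℝ := fun a => a.elim c (fun i => D n i)
  have hidx : ∀ a, idx a < n := by
    intro a; cases a with
    | none => exact hi0
    | some i => exact i.2
  have hrad : ∀ a, 0 ≤ rad a := by
    intro a; cases a with
    | none => exact hc
    | some i => exact hDn i i.2
  -- distance of anchors to the x_i
  have hanch1 : ∀ a, ∀ i < n, μ (idx a) i (el a)⁻¹ ≤ D n i + rad a := by
    intro a i hi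
    cases a with
    | none =>
      show μ i0 i k0⁻¹ ≤ D n i + c
      rw [hG.inv i0 hi0 i hi]
      have := (abs_le.1 (A1 i hi)).2
      linarith
    | some j =>
      show μ j i 1⁻¹ ≤ D n i + D n j
      rw [inv_one, hG.one j j.2 i hi]
      have := (hD (n+1)).tri j (by omega) n (by omega) i (by omega)
      rw [(hD (n+1)).symm j (by omega) n (by omega)] at this
      linarith
  have hanch2 : ∀ a, ∀ i < n, D n i ≤ rad a + μ (idx a) i (el a)⁻¹ := by
    intro a i hi
    cases a with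
    | none =>
      show D n i ≤ c + μ i0 i k0⁻¹
      rw [hG.inv i0 hi0 i hi]
      have := (abs_le.1 (A1 i hi)).1
      linarith
    | some j =>
      show D n i ≤ D n j + μ j i 1⁻¹
      rw [inv_one, hG.one j j.2 i hi]
      exact (hD (n+1)).tri n (by omega) j (by omega) i (by omega)
  -- d(z_a, g z_b) ≤ r_a + r_b + L N g
  have hanch : ∀ a b g, μ (idx a) (idx b) ((el a)⁻¹ * g * el b) ≤ rad a + rad b + L * N g := by
    intro a b g
    cases b with
    | none =>
      cases a with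
      | none =>
        show μ i0 i0 (k0⁻¹ * g * k0) ≤ c + c + L * N g
        have := A2 g
        linarith
      | some i =>
        show μ i i0 (1⁻¹ * g * k0) ≤ D n i + c + L * N g
        rw [inv_one, one_mul]
        have h1 := hG.tri i i.2 i i.2 i0 hi0 g k0
        have h2 := hlipL i i.2 g
        have h3 := hanch1 none i i.2
        have h4 : μ i0 i k0⁻¹ ≤ D n i + c := h3
        rw [hG.inv i0 hi0 i i.2] at h4
        linarith
    | some j =>
      show μ (idx a) j ((el a)⁻¹ * g * 1) ≤ rad a + D n j + L * N g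
      rw [mul_one]
      have h1 := hG.tri (idx a) (hidx a) j j.2 j j.2 (el a)⁻¹ g
      have h2 := hlipL j j.2 g
      have h3 := hanch1 a j j.2
      linarith
  let T : ℕ → H → (Option (Fin n) × H) → ℝ := fun j h p =>
    rad p.1 + L * N p.2 + μ (idx p.1) j ((p.2 * el p.1)⁻¹ * h)
  have hTnn : ∀ j < n, ∀ h p, 0 ≤ T j h p := by
    intro j hj h p
    have h1 := hrad p.1
    have h2 := hN.nonneg p.2
    have h3 := hG.nonneg hD (hidx p.1) hj ((p.2 * el p.1)⁻¹ * h)
    have h4 := mul_nonneg hLpos h2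
    simp only [T]
    linarith
  let f : ℕ → H → ℝ := fun j h => ⨅ p, T j h p
  have hfle : ∀ j < n, ∀ h p, f j h ≤ T j h p := by
    intro j hj h p
    refine ciInf_le ⟨0, ?_⟩ p
    rintro _ ⟨p, rfl⟩
    exact hTnn j hj h p
  have hfge : ∀ j h (b : ℝ), (∀ p, b ≤ T j h p) → b ≤ f j h := by
    intro j h b hb
    exact le_ciInf hb
  have K1 : ∀ i < n, ∀ j < n, ∀ h k, f j (h * k) ≤ f i h + μ i j k := by
    intro i hi j hj h k
    have : f j (h * k) - μ i j k ≤ f i h := by
      apply hfge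
      intro p
      have h1 := hfle j hj (h * k) p
      have h2 := hG.tri (idx p.1) (hidx p.1) i hi j hj ((p.2 * el p.1)⁻¹ * h) k
      rw [mul_assoc] at h2
      simp only [T] at h1 ⊢
      linarith
    linarith
  have K2 : ∀ i < n, ∀ j < n, ∀ h k, μ i j (h⁻¹ * k) ≤ f i h + f j k := by
    intro i hi j hj h k
    have : μ i j (h⁻¹ * k) - f i h ≤ f j k := by
      apply hfge
      intro q
      have : μ i j (h⁻¹ * k) - T j k q ≤ f i h := by
        apply hfge
        intro p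
        -- d(hx_i, kx_j) ≤ d(hx_i, g z_a) + d(g z_a, g' z_b) + d(g' z_b, k x_j)
        have h1 := hG.tri i hi (idx p.1) (hidx p.1) j hj (h⁻¹ * (p.2 * el p.1))
          ((p.2 * el p.1)⁻¹ * k)
        have e1 : h⁻¹ * (p.2 * el p.1) * ((p.2 * el p.1)⁻¹ * k) = h⁻¹ * k := by group
        rw [e1] at h1
        have h2 := hG.tri (idx p.1) (hidx p.1) (idx q.1) (hidx q.1) j hj
          ((p.2 * el p.1)⁻¹ * (q.2 * el q.1)) ((q.2 * el q.1)⁻¹ * k)
        have e2 : (p.2 * el p.1)⁻¹ * (q.2 * el q.1) * ((q.2 * el q.1)⁻¹ * k)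
          = (p.2 * el p.1)⁻¹ * k := by group
        rw [e2] at h2
        have h3 := hanch p.1 q.1 (p.2⁻¹ * q.2)
        have e3 : (el p.1)⁻¹ * (p.2⁻¹ * q.2) * el q.1 = (p.2 * el p.1)⁻¹ * (q.2 * el q.1) := by
          group
        rw [e3] at h3
        have h4 := hN.mul p.2⁻¹ q.2
        rw [hN.inv] at h4
        have h5 := mul_le_mul_of_nonneg_left h4 hLpos
        have h6 := hG.inv i hi (idx p.1) (hidx p.1) ((p.2 * el p.1)⁻¹ * h)
        have e6 : ((p.2 * el p.1)⁻¹ * h)⁻¹ = h⁻¹ * (p.2 * el p.1) := by group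
        rw [e6] at h6
        simp only [T]
        linarith
      linarith
    linarith
  have K3 : ∀ i < n, f i 1 = D n i := by
    intro i hi
    apply le_antisymm
    · have h1 := hfle i hi 1 (some ⟨i, hi⟩, 1)
      have h2 : T i 1 (some ⟨i, hi⟩, 1) = D n i := by
        show D n i + L * N 1 + μ i i ((1 * 1)⁻¹ * 1) = D n i
        rw [hN.one, mul_one, mul_one, inv_one, hG.one i hi i hi, (hD n).self i hi]
        ring
      linarith
    · apply hfge
      intro p
      have h1 := hanch2 p.1 i hi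
      -- d(z_a, x_i) ≤ d(z_a, g⁻¹ x_i) + d(g⁻¹ x_i, x_i)
      have h2 := hG.tri (idx p.1) (hidx p.1) i hi i hi ((p.2 * el p.1)⁻¹ * 1) p.2
      have e2 : (p.2 * el p.1)⁻¹ * 1 * p.2 = (el p.1)⁻¹ := by group
      rw [e2] at h2
      have h3 := hlipL i hi p.2
      simp only [T]
      linarith
  have K4 : ∀ i < n, ∀ g h, f i (g * h) ≤ f i h + L * N g := by
    intro i hi g h
    have : f i (g * h) - L * N g ≤ f i h := by
      apply hfge
      intro p
      have h1 := hfle i hi (g * h) (p.1, g * p.2)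
      have h2 := hN.mul g p.2
      have h3 := mul_le_mul_of_nonneg_left h2 hLpos
      have e : (g * p.2 * el p.1)⁻¹ * (g * h) = (p.2 * el p.1)⁻¹ * h := by group
      simp only [T] at h1 ⊢
      rw [e] at h1
      linarith
    linarith
  obtain ⟨μ', h1, h2, h3⟩ := exists_extH hD hN hn hG f K1 K2 K3 K4
  refine ⟨μ', h1, h2, ?_, ?_⟩
  · rw [h3 i0 hi0]
    have h4 := hfle i0 hi0 k0 (none, 1)
    have h5 : T i0 k0 (none, 1) = c := by
      show c + L * N 1 + μ i0 i0 ((1 * k0)⁻¹ * k0) = c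
      rw [hN.one, one_mul, inv_mul_cancel, hG.one i0 hi0 i0 hi0, (hD n).self i0 hi0]
      ring
    linarith
  · intro j hj h b hb1 hb2
    rw [h3 j hj]
    apply hfge
    rintro ⟨a, g⟩
    cases a with
    | none => exact hb2 g
    | some i =>
      show b ≤ D n i + L * N g + μ i j ((g * 1)⁻¹ * h)
      have h4 := hb1 i i.2
      have h5 := hG.tri i i.2 i i.2 j hj g (g⁻¹ * h)
      rw [mul_inv_cancel_left] at h5
      have h6 := hlipL i i.2 g
      rw [mul_one]
      linarith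

/-- A free step. -/
theorem exists_free_step {D : ℕ → ℕ → ℝ} {N : H → ℝ} {n : ℕ} {μ : ℕ → ℕ → H → ℝ}
    (hD : ∀ n, PM n D) (hN : Norm N) (hn : 1 ≤ n) (hG : Good D N n μ) :
    ∃ μ' : ℕ → ℕ → H → ℝ, Good D N (n+1) μ' ∧ (∀ i < n, ∀ j < n, μ' i j = μ i j) ∧
      (∀ j < n, ∀ h, ∀ b : ℝ, (∀ i < n, b ≤ D n i + μ i j h) → b ≤ μ' n j h) := by
  have hn0 : 0 < n := hn
  have hD0 : 0 ≤ D n 0 := by
    have h1 := (hD (n+1)).tri 0 (by omega) n (by omega) 0 (by omega)
    rw [(hD (n+1)).self 0 (by omega), (hD (n+1)).symm 0 (by omega) n (by omega)] at h1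
    linarith
  obtain ⟨μ', h1, h2, h3, h4⟩ := exists_step hD hN hn hG hn0 1 hD0 (by
      intro i hi
      rw [hG.one i hi 0 hn0, abs_le]
      have t1 := (hD (n+1)).tri n (by omega) 0 (by omega) i (by omega)
      have t2 := (hD (n+1)).tri 0 (by omega) n (by omega) i (by omega)
      have t3 := (hD (n+1)).symm n (by omega) 0 (by omega)
      have t4 := (hD (n+1)).symm i (by omega) 0 (by omega)
      constructor <;> linarith) (by
      intro g
      rw [inv_one, one_mul, mul_one, hG.zero hn0]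
      have := hN.nonneg g
      have h2 : (0:ℝ) ≤ n := by positivity
      nlinarith)
  refine ⟨μ', h1, h2, ?_⟩
  intro j hj h b hb
  apply h4 j hj h b hb
  intro g
  have h5 := hb 0 hn0
  have h6 := hG.tri 0 hn0 0 hn0 j hj g (g⁻¹ * h)
  rw [mul_inv_cancel_left, hG.zero hn0] at h6
  rw [mul_one]
  have := hN.nonneg g
  have h2 : (0:ℝ) ≤ n := by positivity
  nlinarith

/-- capturing a point `k0 x_{i0}`. -/
theorem exists_block {D : ℕ → ℕ → ℝ} {N : H → ℝ} {n : ℕ} {μ : ℕ → ℕ → H → ℝ}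
    (hD : ∀ n, PM n D) (hR : Rich D) (hN : Norm N)
    (hcont : ∀ k : H, ∀ ε > 0, ∃ s > 0, ∀ g, N g < s → N (k⁻¹ * g * k) < ε)
    (hn : 1 ≤ n) (hG : Good D N n μ)
    {i0 : ℕ} (hi0 : i0 < n) (k0 : H) {c : ℝ} (hc : 0 < c) :
    ∃ n' μ', n < n' ∧ Good D N n' μ' ∧ (∀ i < n, ∀ j < n, μ' i j = μ i j) ∧
      ∃ m < n', μ' m i0 k0 ≤ c := by
  classical
  -- the threshold
  obtain ⟨M, hM⟩ : ∃ M : ℕ, ∀ m : ℕ, M ≤ m → ∀ g,
      μ i0 i0 (k0⁻¹ * g * k0) ≤ 2 * c + ((m:ℝ) + 1) * N g := by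
    have hpos : (0:ℝ) < (i0:ℝ) + 1 := by positivity
    obtain ⟨s, hs, hs'⟩ := hcont k0 (c / ((i0:ℝ)+1)) (by positivity)
    obtain ⟨M, hM⟩ := exists_nat_ge (((i0:ℝ)+1) * (2 * N k0) / s + ((i0:ℝ)+1))
    refine ⟨M, ?_⟩
    intro m hm g
    have h0 := hG.lip i0 hi0 (k0⁻¹ * g * k0)
    have hNg := hN.nonneg g
    have hNk := hN.nonneg k0
    have hm' : (M:ℝ) ≤ m := by exact_mod_cast hm
    have hmnn : (0:ℝ) ≤ m := by positivity
    rcases lt_or_ge (N g) s with h | h
    · have h1 := hs' g h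
      have h2 : ((i0:ℝ)+1) * N (k0⁻¹ * g * k0) ≤ c := by
        rw [lt_div_iff₀ hpos] at h1
        linarith
      have h3 : 0 ≤ ((m:ℝ)+1) * N g := by positivity
      linarith
    · have h1 : N (k0⁻¹ * g * k0) ≤ 2 * N k0 + N g := by
        have a1 := hN.mul (k0⁻¹ * g) k0
        have a2 := hN.mul k0⁻¹ g
        rw [hN.inv] at a2
        linarith
      have h2 : ((i0:ℝ)+1) * (2 * N k0) ≤ ((m:ℝ) - ((i0:ℝ)+1)) * s := by
        have : ((i0:ℝ)+1) * (2 * N k0) / s ≤ (m:ℝ) - ((i0:ℝ)+1) := by linarith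
        rwa [div_le_iff₀ hs] at this
      have h4 : 0 ≤ (m:ℝ) - ((i0:ℝ)+1) := by
        have : 0 ≤ ((i0:ℝ)+1) * (2 * N k0) / s := by positivity
        linarith
      have h3 : ((m:ℝ) - ((i0:ℝ)+1)) * s ≤ ((m:ℝ) - ((i0:ℝ)+1)) * N g :=
        mul_le_mul_of_nonneg_left h h4
      have h5 : ((i0:ℝ)+1) * N (k0⁻¹ * g * k0) ≤ ((i0:ℝ)+1) * (2 * N k0 + N g) :=
        mul_le_mul_of_nonneg_left h1 hpos.le
      nlinarith
  -- Katetov function of the target
  have hK : Kat n D (fun i => μ i i0 k0) := by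
    constructor
    · intro i hi j hj
      have := hG.tri i hi j hj i0 hi0 1 k0
      rw [one_mul, hG.one i hi j hj, (hD n).symm i hi j hj] at this
      linarith
    · intro i hi j hj
      have := hG.tri i hi i0 hi0 j hj k0 k0⁻¹
      rw [mul_inv_cancel, hG.one i hi j hj, hG.inv i0 hi0 j hj] at this
      exact this
  obtain ⟨N', hN'1, hN'2, hN'3, hN'4⟩ := hR n _ c M hn hK hc
  -- induction
  have key : ∀ m, n ≤ m → m ≤ N' → ∃ μ' : ℕ → ℕ → H → ℝ, Good D N m μ' ∧
      (∀ i < n, ∀ j < n, μ' i j = μ i j) ∧ (∀ i < m, |μ' i i0 k0 - D N' i| ≤ c) := by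
    intro m hm
    induction m, hm using Nat.le_induction with
    | base =>
      intro _
      refine ⟨μ, hG, fun _ _ _ _ => rfl, ?_⟩
      intro i hi
      rw [abs_sub_comm]
      exact hN'3 i hi
    | succ m hm ih =>
      intro hm'
      obtain ⟨μ1, hG1, hag1, hc1⟩ := ih (by omega)
      obtain ⟨μ2, hG2, hag2, hfree⟩ := exists_free_step hD hN (by omega) hG1
      refine ⟨μ2, hG2, ?_, ?_⟩
      · intro i hi j hj
        rw [hag2 i (by omega) j (by omega), hag1 i hi j hj]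
      · intro i hi
        by_cases him : i < m
        · rw [hag2 i him i0 (by omega)]
          exact hc1 i him
        · have him' : i = m := by omega
          subst him'
          rw [abs_le]
          constructor
          · -- lower bound
            have : D N' i - c ≤ μ2 i i0 k0 := by
              apply hfree i0 (by omega)
              intro j hj
              have a1 := (abs_le.1 (hc1 j hj)).1
              have a2 := (hD (N'+1)).tri N' (by omega) j (by omega) i (by omega)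
              have a3 := (hD (N'+1)).symm j (by omega) i (by omega)
              linarith
            linarith
          · obtain ⟨j, hj, hj'⟩ := hN'4 i (by omega) (by omega)
            have a1 := (abs_le.1 (hc1 j (by omega))).2
            have a2 := hG2.tri i (by omega) j (by omega) i0 (by omega) 1 k0
            rw [one_mul, hG2.one i (by omega) j (by omega), hag2 j (by omega) i0 (by omega)] at a2
            have a3 := (hD (N'+1)).symm j (by omega) i (by omega)
            linarith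
  obtain ⟨μ1, hG1, hag1, hc1⟩ := key N' hN'1 le_rfl
  obtain ⟨μ2, hG2, hag2, hcap, _⟩ := exists_step hD hN (by omega) hG1 (by omega : i0 < N') k0 hc.le
    hc1 (by
      intro g
      rw [hag1 i0 hi0 i0 hi0]
      exact hM N' hN'2 g)
  refine ⟨N'+1, μ2, by omega, hG2, ?_, N', by omega, hcap⟩
  intro i hi j hj
  rw [hag2 i (by omega) j (by omega), hag1 i hi j hj]

/-- The limit of the construction. -/
theorem exists_mu {D : ℕ → ℕ → ℝ} {N : H → ℝ} (hD : ∀ n, PM n D) (hR : Rich D) (hN : Norm N)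
    (hcont : ∀ k : H, ∀ ε > 0, ∃ s > 0, ∀ g, N g < s → N (k⁻¹ * g * k) < ε)
    (q : ℕ → H) :
    ∃ μ : ℕ → ℕ → H → ℝ, (∀ n, Good D N n μ) ∧
      ∀ (i l : ℕ) (ε : ℝ), 0 < ε → ∃ m, μ m i (q l) ≤ ε := by
  classical
  obtain ⟨μ, h1, h2⟩ := chain (α := H → ℝ) (P := fun n μ => Good D N n μ)
    (R := fun k μ => ∃ m, μ m (Nat.unpair (Nat.unpair k).1).1 (q (Nat.unpair (Nat.unpair k).1).2)
      ≤ 1 / (((Nat.unpair k).2 : ℝ) + 1))
    (fun n D D' h hP => hP.loc h) (fun m n D h hP => hP.mono h) (fun _ _ h => N h)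
    (by
      constructor
      · intro i hi j hj
        have e1 : i = 0 := by omega
        have e2 : j = 0 := by omega
        rw [e1, e2, hN.one, (hD 1).self 0 (by omega)]
      · intro i hi j hj h
        exact hN.inv h
      · intro i hi j hj k hk g h
        exact hN.mul g h
      · intro i hi h
        have := hN.nonneg h
        have h2 : (0:ℝ) ≤ i := by positivity
        nlinarith
      · intro _ h
        rfl)
    (by
      intro k n μ hk hP
      have hi0 : (Nat.unpair (Nat.unpair k).1).1 < n :=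
        lt_of_le_of_lt ((Nat.unpair_left_le _).trans (Nat.unpair_left_le _)) hk
      obtain ⟨n', μ', h1, h2, h3, m, hm, hm'⟩ := exists_block hD hR hN hcont (by omega) hP hi0
        (q (Nat.unpair (Nat.unpair k).1).2) (c := 1 / (((Nat.unpair k).2 : ℝ) + 1))
        (by positivity)
      refine ⟨n', μ', h1, h2, h3, ?_⟩
      intro μ'' hag
      refine ⟨m, ?_⟩
      rw [hag m hm _ (by omega)]
      exact hm')
  refine ⟨μ, h1, ?_⟩
  intro i l ε hε
  obtain ⟨e, he⟩ := exists_nat_one_div_lt hε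
  obtain ⟨m, hm⟩ := h2 (Nat.pair (Nat.pair i l) e)
  refine ⟨m, ?_⟩
  simp only [Nat.unpair_pair] at hm
  exact hm.trans he.le

end Pool.Agent.H686R4
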