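import Pool.Agent.H686R4.ShkB

/-!
Part C: the universal group is the isometry group of the completion of the rich countable
(pseudo-)metric space, with a weighted metric of pointwise convergence.
-/

namespace Pool.Agent.H686R4

open Set Filter Topology

/-- The rich distance matrix. -/
noncomputable def DD : ℕ → ℕ → ℝ := Classical.choose exists_rich

theorem DD_pm : ∀ n, PM n DD := (Classical.choose_spec exists_rich).1

theorem DD_rich : Rich DD := (Classical.choose_spec exists_rich).2

/-- The countable pseudo-metric space. -/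
def U0 : Type := ℕ

instance : Countable U0 := inferInstanceAs (Countable ℕ)

theorem DD_self (i : ℕ) : DD i i = 0 := (DD_pm (Nat.succ i)).self i (Nat.lt_succ_self i)

theorem DD_comm (i j : ℕ) : DD i j = DD j i :=
  (DD_pm (i + j + 1)).symm i (by omega) j (by omega)

theorem DD_tri (i j k : ℕ) : DD i k ≤ DD i j + DD j k :=
  (DD_pm (i + j + k + 1)).tri i (by omega) j (by omega) k (by omega)

/-- the underlying index -/
def toN (i : U0) : ℕ := i

/-- the point with a given index -/
def ofN (i : ℕ) : U0 := i

noncomputable instance : PseudoMetricSpace U0 where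
  dist i j := DD (toN i) (toN j)
  dist_self i := DD_self _
  dist_comm i j := DD_comm _ _
  dist_triangle i j k := DD_tri _ _ _

/-- Its completion. -/
abbrev UU : Type := UniformSpace.Completion U0

/-- the distinguished dense sequence. -/
noncomputable def pt (n : ℕ) : UU := ((ofN n : U0) : UU)

theorem dist_pt (m n : ℕ) : dist (pt m) (pt n) = DD m n :=
  UniformSpace.Completion.dist_eq (ofN m) (ofN n)

theorem denseRange_pt : DenseRange pt := UniformSpace.Completion.denseRange_coe (α := U0)

/-- The universal group. -/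
def GU : Type := UU ≃ᵢ UU

noncomputable instance : Group GU := inferInstanceAs (Group (UU ≃ᵢ UU))

/-- evaluation -/
noncomputable def ap (g : GU) (x : UU) : UU := (show UU ≃ᵢ UU from g) x

theorem ap_mul (g h : GU) (x : UU) : ap (g * h) x = ap g (ap h x) := rfl

theorem ap_inv (g : GU) (x : UU) : ap g (ap g⁻¹ x) = x :=
  (show UU ≃ᵢ UU from g).apply_symm_apply x

theorem ap_inv' (g : GU) (x : UU) : ap g⁻¹ (ap g x) = x :=
  (show UU ≃ᵢ UU from g).symm_apply_apply x

theorem ap_dist (g : GU) (x y : UU) : dist (ap g x) (ap g y) = dist x y :=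
  (show UU ≃ᵢ UU from g).dist_eq x y

theorem ap_ext {g h : GU} (H : ∀ x, ap g x = ap h x) : g = h :=
  IsometryEquiv.ext (h₁ := (show UU ≃ᵢ UU from g)) (h₂ := (show UU ≃ᵢ UU from h)) H

/-- summand of the metric. -/
noncomputable def term (g h : GU) (n : ℕ) : ℝ :=
  min (dist (ap g (pt n)) (ap h (pt n))) 1 / ((n:ℝ) + 1)

theorem term_nonneg (g h : GU) (n : ℕ) : 0 ≤ term g h n := by
  unfold term
  positivity

theorem term_le (g h : GU) (n : ℕ) : term g h n ≤ 1 / ((n:ℝ)+1) := by
  unfold term
  have : (0:ℝ) < (n:ℝ)+1 := by positivity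
  exact div_le_div_of_nonneg_right (min_le_right _ _) this.le

theorem term_le_one (g h : GU) (n : ℕ) : term g h n ≤ 1 := by
  refine (term_le g h n).trans ?_
  have : (0:ℝ) ≤ n := by positivity
  rw [div_le_one (by positivity)]
  linarith

theorem term_bdd (g h : GU) : BddAbove (Set.range (term g h)) :=
  ⟨1, by rintro _ ⟨n, rfl⟩; exact term_le_one g h n⟩

/-- The metric. -/
noncomputable def gd (g h : GU) : ℝ :=
  max (dist (ap g (pt 0)) (ap h (pt 0))) (⨆ n, term g h n)

theorem term_le_gd (g h : GU) (n : ℕ) : term g h n ≤ gd g h :=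
  (le_ciSup (term_bdd g h) n).trans (le_max_right _ _)

theorem gd_le {g h : GU} {b : ℝ} (h0 : dist (ap g (pt 0)) (ap h (pt 0)) ≤ b)
    (h1 : ∀ n, term g h n ≤ b) : gd g h ≤ b :=
  max_le h0 (ciSup_le h1)

noncomputable instance : MetricSpace GU where
  dist := gd
  dist_self g := by
    show gd g g = 0
    apply le_antisymm
    · apply gd_le
      · simp
      · intro n; simp [term]
    · exact (term_nonneg g g 0).trans (term_le_gd g g 0)
  dist_comm g h := by
    show gd g h = gd h g
    unfold gd term
    simp only [dist_comm]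
  dist_triangle g h k := by
    show gd g k ≤ gd g h + gd h k
    apply gd_le
    · exact (dist_triangle _ (ap h (pt 0)) _).trans
        (add_le_add (le_max_left _ _) (le_max_left _ _))
    · intro n
      refine le_trans ?_ (add_le_add (term_le_gd g h n) (term_le_gd h k n))
      unfold term
      rw [← add_div]
      have : (0:ℝ) < (n:ℝ)+1 := by positivity
      apply div_le_div_of_nonneg_right _ this.le
      have h1 := dist_triangle (ap g (pt n)) (ap h (pt n)) (ap k (pt n))
      have h2 : 0 ≤ dist (ap g (pt n)) (ap h (pt n)) := dist_nonneg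
      have h3 : 0 ≤ dist (ap h (pt n)) (ap k (pt n)) := dist_nonneg
      rcases min_cases (dist (ap g (pt n)) (ap k (pt n))) 1 with ⟨e, _⟩ | ⟨e, _⟩ <;>
      rcases min_cases (dist (ap g (pt n)) (ap h (pt n))) 1 with ⟨e', _⟩ | ⟨e', _⟩ <;>
      rcases min_cases (dist (ap h (pt n)) (ap k (pt n))) 1 with ⟨e'', _⟩ | ⟨e'', _⟩ <;>
      rw [e, e', e''] <;> linarith
  eq_of_dist_eq_zero := by
    intro g h hgh
    have hgh' : gd g h = 0 := hgh
    have h1 : ∀ n, ap g (pt n) = ap h (pt n) := by
      intro n
      have h2 : term g h n ≤ 0 := by rw [← hgh']; exact term_le_gd g h n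
      have h3 : term g h n = 0 := le_antisymm h2 (term_nonneg g h n)
      unfold term at h3
      have h4 : (0:ℝ) < (n:ℝ)+1 := by positivity
      have h5 : min (dist (ap g (pt n)) (ap h (pt n))) 1 = 0 := by
        rcases div_eq_zero_iff.1 h3 with h | h
        · exact h
        · linarith
      have h6 : dist (ap g (pt n)) (ap h (pt n)) = 0 := by
        rcases min_cases (dist (ap g (pt n)) (ap h (pt n))) 1 with ⟨e, _⟩ | ⟨e, _⟩
        · rw [← e]; exact h5
        · rw [e] at h5; norm_num at h5
      exact dist_eq_zero.1 h6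
    apply ap_ext
    have hc1 : Continuous (ap g) := (show UU ≃ᵢ UU from g).continuous
    have hc2 : Continuous (ap h) := (show UU ≃ᵢ UU from h).continuous
    have := denseRange_pt.equalizer hc1 hc2 (by funext n; exact h1 n)
    intro x
    exact congrFun this x

theorem dist_GU (g h : GU) : dist g h = gd g h := rfl

theorem dist_left (k g h : GU) : dist (k * g) (k * h) = dist g h := by
  rw [dist_GU, dist_GU]
  unfold gd term
  simp only [ap_mul, ap_dist]

/-- evaluation at the dense sequence -/
noncomputable def ev (g : GU) (n : ℕ) : UU := ap g (pt n)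

theorem dist_lt_of_gd {g h : GU} {n : ℕ} {ε : ℝ}
    (hlt : gd g h < min ε 1 / ((n:ℝ)+1)) : dist (ap g (pt n)) (ap h (pt n)) < ε := by
  have h1 := lt_of_le_of_lt (term_le_gd g h n) hlt
  unfold term at h1
  have h4 : (0:ℝ) < (n:ℝ)+1 := by positivity
  rw [div_lt_div_iff_of_pos_right h4] at h1
  rcases min_cases (dist (ap g (pt n)) (ap h (pt n))) 1 with ⟨e, _⟩ | ⟨e, _⟩
  · rw [e] at h1
    exact lt_of_lt_of_le h1 (min_le_left _ _)
  · rw [e] at h1
    exact absurd (lt_of_lt_of_le h1 (min_le_right _ _)) (lt_irrefl _)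

theorem isInducing_ev : IsInducing ev := by
  rw [isInducing_iff_nhds]
  intro g
  apply le_antisymm
  · rw [← tendsto_iff_comap]
    rw [tendsto_pi_nhds]
    intro n
    rw [Metric.tendsto_nhds]
    intro ε hε
    have h4 : (0:ℝ) < (n:ℝ)+1 := by positivity
    have : 0 < min ε 1 / ((n:ℝ)+1) := by positivity
    filter_upwards [Metric.ball_mem_nhds g this] with h hh
    exact dist_lt_of_gd hh
  · rw [Metric.nhds_basis_ball.ge_iff]
    intro ε hε
    obtain ⟨N, hN⟩ := exists_nat_one_div_lt hε
    rw [mem_comap]
    refine ⟨{u | ∀ n ∈ Finset.range (N+1), dist (u n) (ev g n) < ε / 2}, ?_, ?_⟩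
    · have : {u : ℕ → UU | ∀ n ∈ Finset.range (N+1), dist (u n) (ev g n) < ε / 2}
        = ⋂ n ∈ Finset.range (N+1), {u | dist (u n) (ev g n) < ε / 2} := by
        ext u; simp
      rw [this, biInter_finset_mem]
      intro n _
      have h1 : Tendsto (fun u : ℕ → UU => u n) (𝓝 (ev g)) (𝓝 (ev g n)) :=
        (continuous_apply n).continuousAt
      exact h1 (Metric.ball_mem_nhds _ (half_pos hε))
    · intro h hh
      simp only [mem_preimage, mem_ofPred_eq, Finset.mem_range] at hh
      rw [Metric.mem_ball, dist_GU]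
      have key : gd h g ≤ max (ε/2) (1 / ((N:ℝ)+1)) := by
        apply gd_le
        · exact (hh 0 (by omega)).le.trans (le_max_left _ _)
        · intro n
          by_cases hn : n < N + 1
          · refine le_trans ?_ (le_max_left _ _)
            unfold term
            have h4 : (1:ℝ) ≤ (n:ℝ)+1 := by
              have : (0:ℝ) ≤ n := by positivity
              linarith
            have h5 : 0 ≤ min (dist (ap h (pt n)) (ap g (pt n))) 1 := by positivity
            refine (div_le_self h5 h4).trans ?_
            exact (min_le_left _ _).trans (hh n hn).le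
          · refine le_trans ?_ (le_max_right _ _)
            refine (term_le h g n).trans ?_
            apply one_div_le_one_div_of_le (by positivity)
            have : (N:ℝ) ≤ n := by exact_mod_cast (by omega : N ≤ n)
            linarith
      refine lt_of_le_of_lt key ?_
      exact max_lt (by linarith) hN

theorem tendsto_GU {α : Type*} {l : Filter α} {F : α → GU} {g : GU} :
    Tendsto F l (𝓝 g) ↔ ∀ n, Tendsto (fun a => ap (F a) (pt n)) l (𝓝 (ap g (pt n))) := by
  rw [isInducing_ev.tendsto_nhds_iff, tendsto_pi_nhds]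
  rfl

theorem tendsto_GU' {α : Type*} {l : Filter α} {F : α → GU} {g : GU} (h : Tendsto F l (𝓝 g))
    (x : UU) : Tendsto (fun a => ap (F a) x) l (𝓝 (ap g x)) := by
  rw [Metric.tendsto_nhds]
  intro ε hε
  obtain ⟨n, hn⟩ := denseRange_pt.exists_dist_lt x (show 0 < ε / 3 by positivity)
  have h1 := tendsto_GU.1 h n
  rw [Metric.tendsto_nhds] at h1
  filter_upwards [h1 (ε/3) (by positivity)] with a ha
  have t1 := dist_triangle4 (ap (F a) x) (ap (F a) (pt n)) (ap g (pt n)) (ap g x)
  have t2 : dist (ap (F a) x) (ap (F a) (pt n)) = dist x (pt n) := ap_dist _ _ _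
  have t3 : dist (ap g (pt n)) (ap g x) = dist x (pt n) := by rw [ap_dist, dist_comm]
  linarith

theorem isTopologicalGroup_GU : IsTopologicalGroup GU where
  continuous_mul := by
    rw [continuous_iff_continuousAt]
    rintro ⟨g, h⟩
    show Tendsto (fun p : GU × GU => p.1 * p.2) (𝓝 (g, h)) (𝓝 (g * h))
    rw [tendsto_GU]
    intro n
    have h1 : Tendsto (fun p : GU × GU => ap p.2 (pt n)) (𝓝 (g, h)) (𝓝 (ap h (pt n))) :=
      tendsto_GU' (continuous_snd.continuousAt (x := (g, h))) (pt n)
    have h2 : Tendsto (fun p : GU × GU => ap p.1 (ap h (pt n))) (𝓝 (g, h))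
        (𝓝 (ap g (ap h (pt n)))) :=
      tendsto_GU' (continuous_fst.continuousAt (x := (g, h))) _
    rw [Metric.tendsto_nhds] at h1 h2 ⊢
    intro ε hε
    filter_upwards [h1 (ε/2) (by positivity), h2 (ε/2) (by positivity)] with p hp1 hp2
    rw [ap_mul, ap_mul]
    have t1 := dist_triangle (ap p.1 (ap p.2 (pt n))) (ap p.1 (ap h (pt n))) (ap g (ap h (pt n)))
    rw [ap_dist] at t1
    linarith
  continuous_inv := by
    rw [continuous_iff_continuousAt]
    intro g
    show Tendsto (fun p : GU => p⁻¹) (𝓝 g) (𝓝 g⁻¹)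
    rw [tendsto_GU]
    intro n
    have h1 : Tendsto (fun p : GU => ap p (ap g⁻¹ (pt n))) (𝓝 g) (𝓝 (ap g (ap g⁻¹ (pt n)))) :=
      tendsto_GU' tendsto_id _
    rw [Metric.tendsto_nhds] at h1 ⊢
    intro ε hε
    filter_upwards [h1 ε hε] with p hp
    rw [ap_inv] at hp
    have : dist (ap p⁻¹ (pt n)) (ap g⁻¹ (pt n)) = dist (pt n) (ap p (ap g⁻¹ (pt n))) := by
      rw [← ap_dist p, ap_inv]
    rw [this, dist_comm]
    exact hp

instance : SecondCountableTopology UU := by
  have : TopologicalSpace.SeparableSpace UU := inferInstance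
  exact UniformSpace.secondCountable_of_separable UU

theorem separable_GU : TopologicalSpace.SeparableSpace GU := by
  have : SecondCountableTopology GU := isInducing_ev.secondCountableTopology
  infer_instance

end Pool.Agent.H686R4
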